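import Pool.Agent.H502_C3.Poly3

/-!
# 3-colourability of circle graphs is decidable in polynomial time

A chord diagram is a word `w` in which every label occurs exactly twice; its circle graph has the
labels as vertices, adjacent iff they interleave in `w` (`Pool.Agent.H502_C3.Defs`).

The algorithm reads the word once.  After each letter it keeps the function `f` that maps a
colouring of the chords that are open (one endpoint read so far), listed in the order of their
first endpoints, to the number of its extensions to proper 3-colourings of the chords met so far.
Opening a chord appends a variable on which `f` does not depend; closing the chord with index `i`
sums over its colour, with the colours of all the later open chords being different from it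
(`Ops`, `Count`).

The function `f` is stored modulo a small prime as a weighted automaton (a tensor train) that
reads the colours from the oldest open chord to the youngest one.  The states of the layer that
remains after some of the oldest open chords are functions of the colours of the younger ones; they
lie in the span `S Z` of the functions obtained from one word `Z` of operations `P` (open), `N i`
(close the chord with index `i`) and `O c` (an older chord of colour `c` is closed, so all the
present chords avoid `c`), where the colours of the operations `O` are arbitrary.  The dimension of
`S Z` is at most `12 (|Z| + 1) ^ 7` (`Rank`, `Bound`), so the number of states is polynomial.  The
layers are recomputed by Gaussian elimination at each closing (`Gauss`, `Alg`, `Run`).  Since the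
number of colourings is at most `3 ^ |w|`, it is nonzero iff it is nonzero modulo some prime
`p ≤ (2 |w| + 5) ^ 2`.  Polynomial time on Turing machines is in `Poly1`, `Poly2`, `Poly3`.
-/

/-- The problem 3-COL-CIRCLE is in `P`: it is decidable in polynomial time, given a chord diagram,
whether its circle graph is properly 3-colourable. -/
theorem Pool.Agent.Results.MP_a0a67e_lc.ThreeColouringInP.result :
    Pool.Agent.NPC.InPP (fun w : List ℕ => Pool.Agent.H502_C3.IsChordDiagram w ∧
      (Pool.Agent.H502_C3.circleGraph w).Colorable 3) :=
  Pool.Agent.H502_C3.threeCol_inPP
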